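import Pool.Graph.R_seed8.TH490.StmF

set_option autoImplicit false

/-! A pool and the nibble theorem give a realization (copy of the library module TH515.MP325_dreal, with two
uses of a tactic replaced). -/

namespace Pool.Agent.KS6_89.DR

open Pool.Agent.TH490
open Finset Classical

noncomputable section

/-- the analytic inequality -/
theorem growth (p q : ℕ) (hpq : p ≤ q) : ∃ R₂ : ℕ, ∀ R : ℕ, R₂ ≤ R →
    ((R : ℝ) + 1) ^ p + ((R : ℝ) + 1) ^ q < Real.exp (Real.sqrt R / 40) := by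
  have h1 : Filter.Tendsto (fun R : ℕ => Real.sqrt R / 40) Filter.atTop Filter.atTop := by
    refine Filter.Tendsto.atTop_div_const (by norm_num) ?_
    exact Real.tendsto_sqrt_atTop.comp tendsto_natCast_atTop_atTop
  have h2 := (Real.tendsto_exp_div_pow_atTop (2 * q)).comp h1
  have h3 := h2.eventually_gt_atTop (2 * 3200 ^ q)
  obtain ⟨R₂, hR₂⟩ := Filter.eventually_atTop.1 h3
  refine ⟨max R₂ 1, fun R hR => ?_⟩
  have hR1 : (1 : ℝ) ≤ R := by exact_mod_cast (le_max_right _ _).trans hR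
  have h4 := hR₂ R ((le_max_left _ _).trans hR)
  have h4' : 2 * 3200 ^ q < Real.exp (Real.sqrt R / 40) / (Real.sqrt R / 40) ^ (2 * q) := h4
  set y := Real.sqrt R / 40 with hy
  have hsq : Real.sqrt R * Real.sqrt R = R := Real.mul_self_sqrt (by linarith)
  have hs1 : 1 ≤ Real.sqrt R := by rw [Real.one_le_sqrt]; exact hR1
  have hy0 : 0 < y := by rw [hy]; positivity
  have hR' : (R : ℝ) = 1600 * y ^ 2 := by
    rw [hy, div_pow, pow_two (Real.sqrt R), hsq]; ring
  have hb : (R : ℝ) + 1 ≤ 3200 * y ^ 2 := by linarith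
  have h5 : ((R : ℝ) + 1) ^ p ≤ ((R : ℝ) + 1) ^ q :=
    pow_le_pow_right₀ (by linarith) hpq
  have h6 : ((R : ℝ) + 1) ^ q ≤ (3200 * y ^ 2) ^ q := pow_le_pow_left₀ (by linarith) hb q
  have h7 : (3200 * y ^ 2) ^ q = 3200 ^ q * y ^ (2 * q) := by
    rw [mul_pow, ← pow_mul]
  rw [lt_div_iff₀ (by positivity)] at h4'
  calc ((R : ℝ) + 1) ^ p + ((R : ℝ) + 1) ^ q ≤ 2 * ((R : ℝ) + 1) ^ q := by linarith
    _ ≤ 2 * (3200 * y ^ 2) ^ q := by linarith
    _ = 2 * 3200 ^ q * y ^ (2 * q) := by rw [h7, mul_assoc]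
    _ < Real.exp y := h4'

theorem perm1 {α : Type} [DecidableEq α] (a b c d : α) :
    ({a, b, c, d} : Finset α) = {c, d, a, b} := by
  ext x
  simp only [Finset.mem_insert, Finset.mem_singleton]
  tauto

theorem perm2 {α : Type} [DecidableEq α] (a b c d : α) :
    ({a, b, c, d} : Finset α) = {d, c, a, b} := by
  ext x
  simp only [Finset.mem_insert, Finset.mem_singleton]
  tauto

/-- the elements of a set of four elements are different -/
theorem ne_of_card {α : Type} [DecidableEq α] {u b c d : α}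
    (h2 : ({u, b, c, d} : Finset α).card = 4) :
    u ≠ b ∧ u ≠ c ∧ u ≠ d ∧ b ≠ c ∧ b ≠ d ∧ c ≠ d := by
  have hc3 : ∀ x y z : α, ({x, y, z} : Finset α).card ≤ 3 := fun x y z => Finset.card_le_three
  refine ⟨?_, ?_, ?_, ?_, ?_, ?_⟩
  · rintro rfl
    have := hc3 u c d
    rw [Finset.insert_eq_of_mem (by simp)] at h2
    omega
  · rintro rfl
    have := hc3 b u d
    rw [Finset.insert_eq_of_mem (by simp)] at h2
    omega
  · rintro rfl
    have := hc3 b c u
    rw [Finset.insert_eq_of_mem (by simp)] at h2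
    omega
  · rintro rfl
    have := hc3 u b d
    rw [Finset.insert_eq_of_mem (s := {b, d}) (by simp)] at h2
    omega
  · rintro rfl
    have := hc3 u c b
    rw [Finset.insert_eq_of_mem (s := {c, b}) (by simp)] at h2
    omega
  · rintro rfl
    have := hc3 u b c
    rw [Finset.insert_eq_of_mem (s := {c}) (by simp)] at h2
    omega

section
variable {n N R : ℕ} (G : SimpleGraph (Fin n)) (M₀ : ℕ) (f : Fin n × Fin (2 * R) → Pos N)
  (Z : Finset (Fin n × Fin (2 * R)))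

/-- good items -/
abbrev XI : Type := {x : Fin n × Fin (2 * R) // x ∉ Z}

/-- blocks -/
abbrev II : Type := {S : Finset (Fin n × Fin (2 * R)) // Blk f Z S}

/-- pairs of disjoint edges -/
def isConf (e : Finset (XI Z)) : Prop :=
  ∃ a b c d : XI Z, e = {a, b, c, d} ∧ G.Adj a.1.1 b.1.1 ∧ G.Adj c.1.1 d.1.1

/-- the selection problem -/
def DD : Nib n (XI Z) (II f Z) where
  o x := x.1.1
  B β := univ.filter (fun x => x.1 ∈ β.1)
  tiny β := BlkT M₀ f Z β.1
  conf β := univ.filter (fun e => e ⊆ univ.filter (fun x => x.1 ∈ β.1) ∧ e.card = 4 ∧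
    Set.InjOn (fun x : XI Z => x.1.1) (e : Set (XI Z)) ∧ isConf G Z e)

variable {G M₀ f Z}

theorem mem_B {β : II f Z} {x : XI Z} : x ∈ (DD G M₀ f Z).B β ↔ x.1 ∈ β.1 := by
  show x ∈ univ.filter (fun x : XI Z => x.1 ∈ β.1) ↔ _
  rw [Finset.mem_filter]
  exact ⟨fun h => h.2, fun h => ⟨Finset.mem_univ _, h⟩⟩

theorem mem_conf {β : II f Z} {e : Finset (XI Z)} : e ∈ (DD G M₀ f Z).conf β ↔
    (∀ x ∈ e, x.1 ∈ β.1) ∧ e.card = 4 ∧
    (∀ x ∈ e, ∀ y ∈ e, x.1.1 = y.1.1 → x = y) ∧ isConf G Z e := by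
  show e ∈ univ.filter (fun e : Finset (XI Z) => _) ↔ _
  rw [Finset.mem_filter]
  constructor
  · rintro ⟨_, h1, h2, h3, h4⟩
    refine ⟨fun x hx => (Finset.mem_filter.1 (h1 hx)).2, h2, fun x hx y hy hxy => h3 hx hy hxy, h4⟩
  · rintro ⟨h1, h2, h3, h4⟩
    refine ⟨Finset.mem_univ _, fun x hx => Finset.mem_filter.2 ⟨Finset.mem_univ _, h1 x hx⟩, h2,
      fun x hx y hy hxy => h3 x hx y hy hxy, h4⟩

theorem mem_lst {t : ℕ} {x : XI Z} : x ∈ lst (DD G M₀ f Z) t ↔ (x.1.1 : ℕ) = t := by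
  unfold lst
  rw [Finset.mem_filter]
  exact ⟨fun h => h.2, fun h => ⟨Finset.mem_univ _, h⟩⟩

/-- a conflict as a quadruple starting with its top -/
theorem conf_top {β : II f Z} {e : Finset (XI Z)} (he : e ∈ (DD G M₀ f Z).conf β) {u : XI Z}
    (hu : topc (DD G M₀ f Z) u e) : ∃ b c d : XI Z, e = {u, b, c, d} ∧
      b.1 ∈ β.1 ∧ c.1 ∈ β.1 ∧ d.1 ∈ β.1 ∧ u.1 ∈ β.1 ∧
      b.1.1 < u.1.1 ∧ G.Adj u.1.1 b.1.1 ∧ G.Adj c.1.1 d.1.1 ∧
      c.1.1 ≠ u.1.1 ∧ c.1.1 ≠ b.1.1 ∧ d.1.1 ≠ u.1.1 ∧ d.1.1 ≠ b.1.1 := by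
  obtain ⟨h1, h2, h3, a, b, c, d, rfl, hab, hcd⟩ := mem_conf.1 he
  obtain ⟨hue, htop⟩ := hu
  have main : ∀ b' c' d' : XI Z, ({a, b, c, d} : Finset (XI Z)) = {u, b', c', d'} →
      G.Adj u.1.1 b'.1.1 → G.Adj c'.1.1 d'.1.1 →
      (b'.1 ∈ β.1 ∧ c'.1 ∈ β.1 ∧ d'.1 ∈ β.1 ∧ u.1 ∈ β.1 ∧
      b'.1.1 < u.1.1 ∧ G.Adj u.1.1 b'.1.1 ∧ G.Adj c'.1.1 d'.1.1 ∧
      c'.1.1 ≠ u.1.1 ∧ c'.1.1 ≠ b'.1.1 ∧ d'.1.1 ≠ u.1.1 ∧ d'.1.1 ≠ b'.1.1) := by
    intro b' c' d' heq hub hcd'
    rw [heq] at h1 h2 h3 htop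
    obtain ⟨n1, n2, n3, n4, n5, n6⟩ := ne_of_card h2
    have mu : u ∈ ({u, b', c', d'} : Finset (XI Z)) := by simp
    have mb : b' ∈ ({u, b', c', d'} : Finset (XI Z)) := by simp
    have mc : c' ∈ ({u, b', c', d'} : Finset (XI Z)) := by simp
    have md : d' ∈ ({u, b', c', d'} : Finset (XI Z)) := by simp
    exact ⟨h1 _ mb, h1 _ mc, h1 _ md, h1 _ mu, htop b' mb n1.symm, hub, hcd',
      fun h => n2 (h3 _ mc _ mu h).symm, fun h => n4 (h3 _ mc _ mb h).symm,
      fun h => n3 (h3 _ md _ mu h).symm, fun h => n5 (h3 _ md _ mb h).symm⟩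
  have hue' : u = a ∨ u = b ∨ u = c ∨ u = d := by
    rwa [Finset.mem_insert, Finset.mem_insert, Finset.mem_insert, Finset.mem_singleton] at hue
  rcases hue' with h | h | h | h
  · have h' : ({a, b, c, d} : Finset (XI Z)) = {u, b, c, d} := by rw [h]
    exact ⟨b, c, d, h', main b c d h' (h ▸ hab) hcd⟩
  · have h' : ({a, b, c, d} : Finset (XI Z)) = {u, a, c, d} := by
      rw [h]
      exact Finset.insert_comm _ _ _
    exact ⟨a, c, d, h', main a c d h' (h ▸ hab.symm) hcd⟩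
  · have h' : ({a, b, c, d} : Finset (XI Z)) = {u, d, a, b} := by
      rw [h]
      exact perm1 _ _ _ _
    exact ⟨d, a, b, h', main d a b h' (h ▸ hcd) hab⟩
  · have h' : ({a, b, c, d} : Finset (XI Z)) = {u, c, a, b} := by
      rw [h]
      exact perm2 _ _ _ _
    exact ⟨c, a, b, h', main c a b h' (h ▸ hcd.symm) hab⟩

/-- two blocks containing two common good items are equal -/
theorem blk_eq (h3 : ∀ S S', Blk f Z S → Blk f Z S' → S ≠ S' → (S ∩ S').card ≤ 1)
    {β γ : II f Z} {e : Finset (XI Z)} (h1 : ∀ x ∈ e, x.1 ∈ β.1) (h2 : ∀ x ∈ e, x.1 ∈ γ.1)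
    (he : 2 ≤ e.card) : β = γ := by
  by_contra hne
  have h4 := h3 β.1 γ.1 β.2 γ.2 (fun h => hne (Subtype.ext h))
  have h5 : e.card ≤ (β.1 ∩ γ.1).card := by
    refine Finset.card_le_card_of_injOn (fun x => x.1) (fun x hx => ?_) ?_
    · exact Finset.mem_inter.2 ⟨h1 x hx, h2 x hx⟩
    · exact fun x _ y _ h => Subtype.ext h
  omega

/-- conflicts inject into triples -/
theorem count_conf (Wr : Pos N → Pos N → Pos N → Pos N → Prop) (Q : II f Z → Prop)
    [DecidablePred Q]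
    (h3 : ∀ S S', Blk f Z S → Blk f Z S' → S ≠ S' → (S ∩ S').card ≤ 1)
    (hW : ∀ β : II f Z, Q β → ∀ a b c d, a ∈ β.1 → b ∈ β.1 → c ∈ β.1 → d ∈ β.1 →
      Wr (f a) (f b) (f c) (f d)) (u : XI Z) :
    ∑ β ∈ univ.filter Q, (((DD G M₀ f Z).conf β).filter
      (fun e => topc (DD G M₀ f Z) u e)).card ≤ (trip G Wr f Z u.1).card := by
  rw [← Finset.card_sigma]
  have hex : ∀ p : (Σ _ : II f Z, Finset (XI Z)),
      ∃ t : (Fin n × Fin (2 * R)) × (Fin n × Fin (2 * R)) × (Fin n × Fin (2 * R)),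
      p ∈ (univ.filter Q).sigma (fun β => ((DD G M₀ f Z).conf β).filter
        (fun e => topc (DD G M₀ f Z) u e)) →
      t ∈ trip G Wr f Z u.1 ∧ ∃ (b c d : XI Z), t = (b.1, c.1, d.1) ∧ p.2 = {u, b, c, d} := by
    intro p
    by_cases hp : p ∈ (univ.filter Q).sigma (fun β => ((DD G M₀ f Z).conf β).filter
        (fun e => topc (DD G M₀ f Z) u e))
    · have hp1 := Finset.mem_sigma.1 hp
      have hQ := (Finset.mem_filter.1 hp1.1).2
      have hp2 := Finset.mem_filter.1 hp1.2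
      obtain ⟨b, c, d, he, hb, hc, hd, hu, h1, h2, h3, h4, h5, h6, h7⟩ := conf_top hp2.1 hp2.2
      refine ⟨(b.1, c.1, d.1), fun _ => ⟨?_, b, c, d, rfl, he⟩⟩
      unfold trip
      rw [Finset.mem_filter]
      exact ⟨Finset.mem_univ _, b.2, c.2, d.2, h1, h2, h3, h4, h5, h6, h7, hW _ hQ _ _ _ _ hu hb hc hd⟩
    · exact ⟨(u.1, u.1, u.1), fun h => absurd h hp⟩
  choose F hF using hex
  refine Finset.card_le_card_of_injOn F (fun p hp => (hF p hp).1) ?_
  intro p hp p' hp' h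
  obtain ⟨-, b, c, d, e1, e2⟩ := hF p hp
  obtain ⟨-, b', c', d', e1', e2'⟩ := hF p' hp'
  rw [e1, e1'] at h
  have hb : b = b' := Subtype.ext (Prod.mk.inj h).1
  have hc : c = c' := Subtype.ext (Prod.mk.inj (Prod.mk.inj h).2).1
  have hd : d = d' := Subtype.ext (Prod.mk.inj (Prod.mk.inj h).2).2
  subst hb hc hd
  have hee : p.2 = p'.2 := by rw [e2, e2']
  have hm := (mem_conf.1 (Finset.mem_filter.1 (Finset.mem_sigma.1 hp).2).1)
  have hm' := (mem_conf.1 (Finset.mem_filter.1 (Finset.mem_sigma.1 hp').2).1)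
  have hβ : p.1 = p'.1 := blk_eq h3 hm.1 (by rw [hee]; exact hm'.1) (by rw [hm.2.1]; norm_num)
  exact Sigma.ext hβ (heq_of_eq hee)

theorem card_lst (i : Fin n) : (lst (DD G M₀ f Z) (i : ℕ)).card +
    (univ.filter (fun s : Fin (2 * R) => (i, s) ∈ Z)).card = 2 * R := by
  have h1 : (lst (DD G M₀ f Z) (i : ℕ)).card =
      (univ.filter (fun s : Fin (2 * R) => ¬ (i, s) ∈ Z)).card := by
    refine Finset.card_bij (fun x _ => x.1.2) ?_ ?_ ?_
    · intro x hx
      have h2 : x.1.1 = i := Fin.ext (mem_lst.1 hx)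
      rw [Finset.mem_filter]
      refine ⟨Finset.mem_univ _, ?_⟩
      rw [← h2]
      exact x.2
    · intro x hx y hy h
      have h2 : x.1.1 = i := Fin.ext (mem_lst.1 hx)
      have h3 : y.1.1 = i := Fin.ext (mem_lst.1 hy)
      exact Subtype.ext (Prod.ext (h2.trans h3.symm) h)
    · intro s hs
      exact ⟨⟨(i, s), (Finset.mem_filter.1 hs).2⟩, mem_lst.2 rfl, rfl⟩
  rw [h1, add_comm, Finset.card_filter_add_card_filter_not, Finset.card_univ, Fintype.card_fin]

/-- the hypotheses of the nibble theorem -/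
theorem nhyp (hR : 1 ≤ R) (hN : N < (R + 1) ^ 100)
    (hgr : ((R : ℝ) + 1) ^ 300 + ((R : ℝ) + 1) ^ 900 < Real.exp (Real.sqrt R / 40))
    (hP : PoolP G N R M₀ f Z) (hgeo : R_geo) : NHyp (DD G M₀ f Z) 30 R := by
  obtain ⟨g1, g2, g3, g4, g5, g6, g7, g8, g9, g10⟩ := hgeo n G N R M₀ f Z hR hP
  refine
  { conf_sub := fun β e he x hx => mem_B.2 ((mem_conf.1 he).1 x hx)
    conf_card := fun β e he => (mem_conf.1 he).2.1
    conf_inj := fun β e he x hx y hy h => (mem_conf.1 he).2.2.1 x hx y hy h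
    H1 := ?_
    H2 := ?_
    H3 := ?_
    H4l := ?_
    H4u := ?_
    H5 := ?_
    H6 := ?_
    H7 := ?_
    H8 := ?_
    H9 := ?_ }
  · intro β γ hne
    suffices hs : ((DD G M₀ f Z).B β ∩ (DD G M₀ f Z).B γ).card ≤ 1 by
      refine le_trans (Finset.card_le_card ?_) hs
      intro x hx
      exact (@Finset.mem_inter _ (_) _ _ _).2 ((@Finset.mem_inter _ (_) _ _ _).1 hx)
    by_contra hc
    push Not at hc
    exact hne (blk_eq g3 (e := (DD G M₀ f Z).B β ∩ (DD G M₀ f Z).B γ)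
      (fun x hx => mem_B.1 (Finset.mem_inter.1 hx).1)
      (fun x hx => mem_B.1 (Finset.mem_inter.1 hx).2) (Nat.succ_le_of_lt hc))
  · rintro β x hx v hv v' hv' ⟨γ, h1, h2⟩ ⟨γ', h3, h4⟩
    exact Subtype.ext (g4 β.1 x.1 v.1 v'.1 β.2 x.2 (fun h => hx (mem_B.2 h)) (mem_B.1 hv)
      (mem_B.1 hv') ⟨γ.1, γ.2, mem_B.1 h1, mem_B.1 h2⟩ ⟨γ'.1, γ'.2, mem_B.1 h3, mem_B.1 h4⟩)
  · intro i t hit
    by_cases hi : i < n
    · by_cases ht : t < n
      · refine le_trans (Finset.card_le_card_of_injOn (fun u => u.1.2) ?_ ?_)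
          (hP.near ⟨i, hi⟩ ⟨t, ht⟩ (fun h => hit (Fin.mk.inj h)))
        · intro u hu
          obtain ⟨h1, z, h2, v, β, γ, h3, h4, h5, h6⟩ := Finset.mem_filter.1 hu
          have e1 : u.1 = ((⟨i, hi⟩ : Fin n), u.1.2) := Prod.ext (Fin.ext (mem_lst.1 h1)) rfl
          have e2 : z.1 = ((⟨t, ht⟩ : Fin n), z.1.2) := Prod.ext (Fin.ext (mem_lst.1 h2)) rfl
          refine Finset.mem_coe.2 (Finset.mem_filter.2 ⟨Finset.mem_univ _, z.1.2, ?_⟩)
          rw [← e1, ← e2]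
          exact ⟨u.2, z.2, v.1, v.2, g5 β.1 _ _ β.2 (mem_B.1 h3) (mem_B.1 h4),
            g5 γ.1 _ _ γ.2 (mem_B.1 h5) (mem_B.1 h6)⟩
        · intro u hu v hv h
          have h1 := mem_lst.1 (Finset.mem_filter.1 hu).1
          have h2 := mem_lst.1 (Finset.mem_filter.1 hv).1
          exact Subtype.ext (Prod.ext (Fin.ext (h1.trans h2.symm)) h)
      · rw [Finset.card_eq_zero.2]
        · norm_num
        · rw [Finset.filter_eq_empty_iff]
          rintro u _ ⟨z, hz, _⟩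
          exact ht ((mem_lst.1 hz) ▸ z.1.1.2)
    · rw [Finset.card_eq_zero.2]
      · norm_num
      · rw [Finset.filter_eq_empty_iff]
        intro u hu _
        exact hi ((mem_lst.1 hu) ▸ u.1.1.2)
  · intro i
    have h1 := card_lst (G := G) (M₀ := M₀) (f := f) (Z := Z) i
    have h2 := hP.size i
    omega
  · intro i
    have h1 := card_lst (G := G) (M₀ := M₀) (f := f) (Z := Z) i
    omega
  · intro β hβ
    refine le_trans (Nat.mul_le_mul_left 40 ?_) (g6 β.1 β.2 hβ)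
    exact Finset.card_le_card_of_injOn (fun x => x.1) (fun x hx => mem_B.1 hx)
      (fun x _ y _ h => Subtype.ext h)
  · intro u
    have h1 := count_conf (G := G) (M₀ := M₀) Cop (fun β => ¬ (DD G M₀ f Z).tiny β) g3
      (fun β _ a b c d ha hb hc hd => g7 β.1 a b c d β.2 ha hb hc hd) u
    refine le_trans ?_ (hP.deg u.1 u.2)
    exact_mod_cast h1
  · intro u
    have h1 := count_conf (G := G) (M₀ := M₀) (Tny M₀) (fun β => (DD G M₀ f Z).tiny β) g3
      (fun β hβ a b c d ha hb hc hd => g8 β.1 a b c d hβ ha hb hc hd) u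
    refine le_trans ?_ (hP.tny u.1 u.2)
    exact_mod_cast h1
  · -- the number of owners and blocks
    have h1 : n ≤ N ^ 3 := by
      have h2 : Fintype.card (XI Z) ≤ N ^ 3 := by
        have h3 := Fintype.card_le_of_injective (fun x : XI Z => f x.1)
          (fun x y h => Subtype.ext (g1 x.1 y.1 x.2 y.2 h))
        have h4 : Fintype.card (Pos N) = N ^ 3 := by
          show Fintype.card (Fin 3 → Fin N) = N ^ 3
          rw [Fintype.card_fun, Fintype.card_fin, Fintype.card_fin]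
        rwa [h4] at h3
      refine le_trans ?_ h2
      have h5 : ∀ i : Fin n, ∃ x : XI Z, x.1.1 = i := by
        intro i
        have h6 := card_lst (G := G) (M₀ := M₀) (f := f) (Z := Z) i
        have h7 := hP.size i
        have h8 : 0 < (lst (DD G M₀ f Z) (i : ℕ)).card := by omega
        obtain ⟨x, hx⟩ := Finset.card_pos.1 h8
        exact ⟨x, Fin.ext (mem_lst.1 hx)⟩
      choose x hx using h5
      have h9 := Fintype.card_le_of_injective x (fun i j h => by rw [← hx i, ← hx j, h])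
      rwa [Fintype.card_fin] at h9
    have h2 : Fintype.card (II f Z) ≤ N ^ 9 := by
      refine le_trans (le_of_eq ?_) g10
      exact Fintype.card_subtype _
    have h3 : (N : ℝ) ≤ ((R : ℝ) + 1) ^ 100 := by exact_mod_cast hN.le
    have h4 : (n : ℝ) ≤ ((R : ℝ) + 1) ^ 300 := by
      calc (n : ℝ) ≤ (N : ℝ) ^ 3 := by exact_mod_cast h1
        _ ≤ (((R : ℝ) + 1) ^ 100) ^ 3 := pow_le_pow_left₀ (Nat.cast_nonneg _) h3 3
        _ = ((R : ℝ) + 1) ^ 300 := by rw [← pow_mul]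
    have h5 : (Fintype.card (II f Z) : ℝ) ≤ ((R : ℝ) + 1) ^ 900 := by
      calc (Fintype.card (II f Z) : ℝ) ≤ (N : ℝ) ^ 9 := by exact_mod_cast h2
        _ ≤ (((R : ℝ) + 1) ^ 100) ^ 9 := pow_le_pow_left₀ (Nat.cast_nonneg _) h3 9
        _ = ((R : ℝ) + 1) ^ 900 := by rw [← pow_mul]
    exact lt_of_le_of_lt (add_le_add h4 h5) hgr
  · intro β hβ t
    suffices hs : ((DD G M₀ f Z).B β ∩ lst (DD G M₀ f Z) t).card ≤ 30 by
      refine le_trans (Finset.card_le_card ?_) hs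
      intro x hx
      exact (@Finset.mem_inter _ (_) _ _ _).2 ((@Finset.mem_inter _ (_) _ _ _).1 hx)
    by_contra hc
    push Not at hc
    obtain ⟨A, hA, hAc⟩ := Finset.exists_subset_card_eq
      (s := ((DD G M₀ f Z).B β ∩ lst (DD G M₀ f Z) t).image (fun x => x.1.2)) (n := 4) (by
        rw [Finset.card_image_of_injOn]
        · omega
        · intro x hx y hy h
          have h1 := mem_lst.1 (Finset.mem_inter.1 hx).2
          have h2 := mem_lst.1 (Finset.mem_inter.1 hy).2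
          exact Subtype.ext (Prod.ext (Fin.ext (h1.trans h2.symm)) h))
    have hne : ((DD G M₀ f Z).B β ∩ lst (DD G M₀ f Z) t).Nonempty := by
      rw [← Finset.card_pos]; omega
    obtain ⟨x0, hx0⟩ := hne
    have hmem : ∀ s ∈ A, (x0.1.1, s) ∈ β.1 := by
      intro s hs
      obtain ⟨x, hx, rfl⟩ := Finset.mem_image.1 (hA hs)
      have h1 := mem_lst.1 (Finset.mem_inter.1 hx).2
      have h2 := mem_lst.1 (Finset.mem_inter.1 hx0).2
      have h3 : x.1 = (x0.1.1, x.1.2) := Prod.ext (Fin.ext (h1.trans h2.symm)) rfl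
      rw [← h3]
      exact mem_B.1 (Finset.mem_inter.1 hx).1
    refine hP.cop4 x0.1.1 (A.orderEmbOfFin hAc) (A.orderEmbOfFin hAc).injective ?_
    exact g7 β.1 _ _ _ _ β.2 (hmem _ (A.orderEmbOfFin_mem hAc 0)) (hmem _ (A.orderEmbOfFin_mem hAc 1))
      (hmem _ (A.orderEmbOfFin_mem hAc 2)) (hmem _ (A.orderEmbOfFin_mem hAc 3))

end

/-- a pool and the nibble theorem give a realization -/
theorem dreal : N_main → R_geo → D_real := by
  intro hNm hgeo
  obtain ⟨R₁, hR₁⟩ := hNm 30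
  obtain ⟨R₂, hR₂⟩ := growth 300 900 (by norm_num)
  refine ⟨max R₁ (max R₂ 1), ?_⟩
  intro n G N R M₀ f Z hR _ hN hP
  have hRa : R₁ ≤ R := (le_max_left _ _).trans hR
  have hRb : R₂ ≤ R := ((le_max_left _ _).trans (le_max_right _ _)).trans hR
  have hRc : 1 ≤ R := ((le_max_right _ _).trans (le_max_right _ _)).trans hR
  have hH := nhyp hRc hN (hR₂ R hRb) hP hgeo
  obtain ⟨x, hx, hx'⟩ := hR₁ R hRa n (XI Z) (II f Z) (DD G M₀ f Z) hH
  obtain ⟨g1, g2, g3, g4, g5, g6, g7, g8, g9, g10⟩ := hgeo n G N R M₀ f Z hRc hP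
  have ho : ∀ i, (x i).1.1 = i := hx
  have hne : ∀ {i j}, i ≠ j → (x i).1 ≠ (x j).1 := by
    intro i j hij h
    exact hij (by rw [← ho i, ← ho j, h])
  refine ⟨fun i => f (x i).1, ?_, ?_, ?_⟩
  · intro i j h
    have := g1 _ _ (x i).2 (x j).2 h
    rw [← ho i, ← ho j, this]
  · intro u v w huv hwu hwv
    exact g2 _ _ _ (x u).2 (x v).2 (x w).2 (hne huv.ne) (hne hwu.symm) (hne hwv.symm)
  · intro u v y z huv hyz h1 h2 h3 h4 hcop
    obtain ⟨S, hS, s1, s2, s3, s4⟩ := g9 _ _ _ _ (x u).2 (x v).2 (x y).2 (x z).2 (hne huv.ne)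
      (hne h1.symm) (hne h3.symm) (hne h2.symm) (hne h4.symm) (hne hyz.ne) hcop
    have hne' : ∀ {i j}, i ≠ j → x i ≠ x j := fun hij h => hne hij (congrArg Subtype.val h)
    have he : ({x u, x v, x y, x z} : Finset (XI Z)) ∈ (DD G M₀ f Z).conf ⟨S, hS⟩ := by
      rw [mem_conf]
      have hmem : ∀ w, w ∈ ({x u, x v, x y, x z} : Finset (XI Z)) →
          ∃ i, w = x i ∧ (x i).1 ∈ S := by
        intro w hw
        rw [Finset.mem_insert, Finset.mem_insert, Finset.mem_insert, Finset.mem_singleton] at hw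
        rcases hw with h | h | h | h
        · exact ⟨u, h, s1⟩
        · exact ⟨v, h, s2⟩
        · exact ⟨y, h, s3⟩
        · exact ⟨z, h, s4⟩
      refine ⟨fun w hw => ?_, ?_, ?_, ?_⟩
      · obtain ⟨i, rfl, h⟩ := hmem w hw
        exact h
      · rw [Finset.card_insert_of_notMem, Finset.card_insert_of_notMem,
          Finset.card_pair (hne' hyz.ne)]
        · rw [Finset.mem_insert, Finset.mem_singleton]
          rintro (h | h)
          · exact hne' h2.symm h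
          · exact hne' h4.symm h
        · rw [Finset.mem_insert, Finset.mem_insert, Finset.mem_singleton]
          rintro (h | h | h)
          · exact hne' huv.ne h
          · exact hne' h1.symm h
          · exact hne' h3.symm h
      · intro w hw w' hw' hww
        obtain ⟨i, rfl, -⟩ := hmem w hw
        obtain ⟨j, rfl, -⟩ := hmem w' hw'
        rw [ho, ho] at hww
        rw [hww]
      · refine ⟨x u, x v, x y, x z, rfl, ?_, ?_⟩
        · rw [ho, ho]; exact huv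
        · rw [ho, ho]; exact hyz
    obtain ⟨w, hw, hw'⟩ := hx' ⟨S, hS⟩ _ he
    have hwi : ∃ i, w = x i := by
      rw [Finset.mem_insert, Finset.mem_insert, Finset.mem_insert, Finset.mem_singleton] at hw
      rcases hw with h | h | h | h
      · exact ⟨u, h⟩
      · exact ⟨v, h⟩
      · exact ⟨y, h⟩
      · exact ⟨z, h⟩
    obtain ⟨i, rfl⟩ := hwi
    exact hw' (congrArg x (hx i))

end

end Pool.Agent.KS6_89.DR
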