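import Pool.Graph.R_seed8.TH370.MP325_G1
import Pool.Graph.R_seed8.TH370.MP325_G2a
import Pool.Graph.R_seed8.TH113.MP325_G2b
import Pool.Graph.R_seed8.TH126.MP325_G3
import Pool.Graph.R_seed8.TH615.MP325_g4a
import Pool.Graph.R_seed8.TH113.MP325_G4b
import Pool.Graph.R_seed8.TH615.MP325_g4c
import Pool.Graph.R_seed8.TH113.MP325_G5
import Pool.Graph.R_seed8.TH75.MP325_P1
import Pool.Graph.R_seed8.TH298.MP325_P2a
import Pool.Graph.R_seed8.TH73.MP325_P2b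
import Pool.Graph.R_seed8.TH75.MP325_P3
import Pool.Graph.R_seed8.TH75.MP325_P4
import Pool.Graph.R_seed8.TH989.MP325_DBG
import Pool.Graph.R_seed8.TH126.MP325_RG
import Pool.Graph.R_seed8.TH897.MP325_dmain
import Pool.Graph.R_seed8.TH298.MP325_NE
import Pool.Graph.R_seed8.TH699.MP325_na
import Pool.Graph.R_seed8.TH987.MP325_NBN
import Pool.Graph.R_seed8.TH554.MP325_nbt
import Pool.Graph.R_seed8.TH987.MP325_NY
import Pool.Graph.R_seed8.TH989.MP325_NL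
import Pool.Graph.R_seed8.TH828.MP325_nxstep
import Pool.Graph.R_seed8.TH384.MP325_NM
import Pool.Graph.R_seed8.TH298.MP325_LLL
import Pool.Graph.R_seed8.TH737.MP325_HUB
import Pool.Graph.R_seed8.TH480.MP325_SMAIN
import Pool.Graph.R_seed8.TH480.MP325_FINAL
import Pool.Graph.R_seed8.TH490.DPoolF
import Pool.Agent.KS6_89.DR.Dreal

/-! Assembly of the library modules (as in the library proof of S07985). -/

set_option autoImplicit false

namespace Pool.Agent.KS6_89.DR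

theorem linear :
    ∃ C : ℝ, ∀ (n : ℕ) (G : SimpleGraph (Fin n)),
      ∃ (f : Fin n → Fin 3 → ℤ) (b : Fin 3 → ℕ),
        (∀ v i, 0 ≤ f v i ∧ f v i < (b i : ℤ)) ∧
        Function.Injective f ∧
        (∀ u v w : Fin n, G.Adj u v → w ≠ u → w ≠ v →
          (fun i => (f w i : ℝ)) ∉
            segment ℝ (fun i => (f u i : ℝ)) (fun i => (f v i : ℝ))) ∧
        (∀ u v x y : Fin n, G.Adj u v → G.Adj x y → s(u, v) ≠ s(x, y) →
          ∀ z ∈ segment ℝ (fun i => (f u i : ℝ)) (fun i => (f v i : ℝ)),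
            z ∈ segment ℝ (fun i => (f x i : ℝ)) (fun i => (f y i : ℝ)) →
              (z = (fun i => (f u i : ℝ)) ∨ z = (fun i => (f v i : ℝ))) ∧
              (z = (fun i => (f x i : ℝ)) ∨ z = (fun i => (f y i : ℝ)))) ∧
        ((∏ i, b i : ℕ) : ℝ) ≤ C * ((G.edgeSet.ncard : ℝ) + 1) * (n : ℝ) := by
  obtain ⟨g1a, g1b, g1c, g1d, g1e, g1f⟩ := Pool.Agent.TH370.MP325.g1
  obtain ⟨g2a, g2b, g2c⟩ := Pool.Agent.TH370.MP325.g2a
  obtain ⟨g2d, g2e, g2f, g2g⟩ := Pool.Agent.TH113.MP325.g2b g2a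
  obtain ⟨g3a, g3b, g3c⟩ := Pool.Agent.TH490.g3 g1b g1c g1d g2g
  obtain ⟨g4a, g4b, g4c⟩ := Pool.Agent.TH615.MP325.g4a g1b g1d g1e g1f
  obtain ⟨g4d, g4e, g4f⟩ := Pool.Agent.TH113.MP325.g4b g2a g2b g2c g3a g4b g4c
  have g4g := Pool.Agent.TH615.MP325.g4c g1b g1d g1e g2c g2e
  obtain ⟨g5a, g5b, g5c, g5d⟩ := Pool.Agent.TH113.MP325.g5a g2e g2f g4e g4f
  obtain ⟨g5e, g5f, g5g⟩ := Pool.Agent.TH113.MP325.g5b g2e g4a g4d g4e g4g
  obtain ⟨p1a, p1b⟩ := Pool.Agent.TH490.p1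
  obtain ⟨p2a, p2b⟩ := Pool.Agent.TH298.MP325P2a.p2a
  have hne := Pool.Agent.TH298.MP325NE.nelem
  have hna := Pool.Agent.TH699.na hne
  have hnbn := Pool.Agent.TH987.MP325.nbn hne
  have hnbt := Pool.Agent.TH490.nbt hne
  have hny := Pool.Agent.TH987.MP325.nystep hne hna hnbn hnbt
  have hnl := Pool.Agent.TH989.NL.nyloc hne
  have hnx := Pool.Agent.TH828.NX.nxstep hne
  have hnm := Pool.Agent.TH384.MP325_NM.nmain hne hny hnl hnx
  have hdbg := Pool.Agent.TH989.DBG.dbg g2g g3a g3c g5a g5b g5c g5d g5e g5f g5g p1a p1b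
  have hpool := Pool.Agent.TH490.dpool g1b g3a g3b p1a p2a Pool.Agent.TH490.p2b p2b
    Pool.Agent.TH490.p3 Pool.Agent.TH490.p4 hdbg
  have hreal := Pool.Agent.KS6_89.DR.dreal hnm Pool.Agent.TH490.rgeo
  have hdm := Pool.Agent.TH897.MP325.dmain hpool hreal
  have hhub := Pool.Agent.TH737.HUB.shub p1a g2g g3a
  have hsm := Pool.Agent.TH480.SM.smain g2d g2g g3a Pool.Agent.TH298.MP325LLL.slll hhub
  exact Pool.Agent.TH480.FIN.ffinal hsm hdm

end Pool.Agent.KS6_89.DR
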